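import Pool.Agent.H78.STN.Stmts

/-!
# Board STN, row SML: the small solutions
-/

set_option autoImplicit false

namespace Pool.STN

theorem sml_dec : ∀ a ∈ Finset.Icc 1 41, ∀ b ∈ Finset.Icc 1 41, a + b ≤ 41 →
    3 ^ (a + b) < 2 ^ (2 * a + b) + 4 ^ a → 2 ^ (2 * a + b) < 3 ^ (a + b) + 4 ^ a →
    (a, b) = (1, 1) ∨ (a, b) = (2, 1) ∨ (a, b) = (3, 1) ∨ (a, b) = (3, 2) ∨ (a, b) = (4, 3) ∨
      (a, b) = (7, 5) := by
  decide +kernel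

theorem SML_thm : SMLStmt := by
  intro a b ha hb hab h
  rw [abs_lt] at h
  obtain ⟨h1, h2⟩ := h
  refine sml_dec a (Finset.mem_Icc.2 ⟨ha, by omega⟩) b (Finset.mem_Icc.2 ⟨hb, by omega⟩) hab ?_ ?_
  · have h3 : (3 : ℤ) ^ (a + b) < 2 ^ (2 * a + b) + 4 ^ a := by linarith
    exact_mod_cast h3
  · have h3 : (2 : ℤ) ^ (2 * a + b) < 3 ^ (a + b) + 4 ^ a := by linarith
    exact_mod_cast h3

end Pool.STN
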