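import Pool.Agent.H78.STN.Stmts2

/-!
# Board STO, row SUM: the linear form of a cycle and the number of local minima
-/

set_option autoImplicit false

open Finset

namespace Pool.STN

theorem sum_up {x : ℕ} (hx : 2 ≤ x) (h : x % 3 ≠ 0) :
    3 * F x = 4 * x + 1 ∨ 3 * F x + 1 = 4 * x := by
  unfold F
  rw [if_neg h]
  split_ifs with h1
  · left; omega
  · right; omega

theorem sum_dn {x : ℕ} (h : x % 3 = 0) : 3 * F x = 2 * x := by
  unfold F
  rw [if_pos h]
  omega

theorem sum_lt {x : ℕ} (hx : 2 ≤ x) (h : x % 3 = 0) : F x < x := by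
  have := sum_dn h
  omega

theorem sum_gt {x : ℕ} (hx : 2 ≤ x) (h : x % 3 ≠ 0) : x < F x := by
  have := sum_up hx h
  omega

/-- the error term of one step -/
noncomputable def sum_t (x : ℕ) : ℝ := Real.log (F x : ℕ) - Real.log x -
  (Real.log 2 - Real.log 3 + (if x % 3 = 0 then 0 else Real.log 2))

theorem sum_t0 {x : ℕ} (hx : 2 ≤ x) (h : x % 3 = 0) : sum_t x = 0 := by
  have h1 : (3 : ℝ) * (F x : ℕ) = 2 * x := by exact_mod_cast sum_dn h
  have hx0 : (0 : ℝ) < x := by
    have : 0 < x := by omega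
    exact_mod_cast this
  have h2 : ((F x : ℕ) : ℝ) = 2 * x / 3 := by linarith
  unfold sum_t
  rw [if_pos h, h2, Real.log_div (by positivity) (by norm_num),
    Real.log_mul (by norm_num) hx0.ne']
  ring

theorem sum_log {x e : ℝ} (hx : 2 ≤ x) (he : e = 1 ∨ e = -1) :
    |Real.log (1 + e / (4 * x))| ≤ 1 / 4 * (1 / (x - 1)) := by
  have h1 : 1 / 4 * (1 / (x - 1)) = 1 / (4 * (x - 1)) := by
    rw [one_div_mul_one_div]
  have h2 : 1 / (4 * x) ≤ 1 / (4 * (x - 1)) :=
    one_div_le_one_div_of_le (by linarith) (by linarith)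
  have h3 : 1 / (4 * x - 1) ≤ 1 / (4 * (x - 1)) :=
    one_div_le_one_div_of_le (by linarith) (by linarith)
  rw [h1]
  rcases he with rfl | rfl
  · have h4 : 0 < 1 / (4 * x) := by positivity
    have h5 := Real.log_le_sub_one_of_pos (show (0 : ℝ) < 1 + 1 / (4 * x) by linarith)
    have h6 : 0 ≤ Real.log (1 + 1 / (4 * x)) := Real.log_nonneg (by linarith)
    rw [abs_of_nonneg h6]
    linarith
  · have h4 : 0 < 1 / (4 * x) := by positivity
    have h4' : 1 / (4 * x) ≤ 1 / 8 := one_div_le_one_div_of_le (by norm_num) (by linarith)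
    have h7 : (-1 : ℝ) / (4 * x) = - (1 / (4 * x)) := by ring
    rw [h7]
    have hp : (0 : ℝ) < 1 + -(1 / (4 * x)) := by linarith
    have h5 := Real.log_le_sub_one_of_pos hp
    have h6 := Real.one_sub_inv_le_log_of_pos hp
    have h8 : 1 - (1 + -(1 / (4 * x)))⁻¹ = - (1 / (4 * x - 1)) := by
      have h9 : (4 * x - 1) ≠ 0 := by
        have : 0 < 4 * x - 1 := by linarith
        exact this.ne'
      have h10 : (1 + -(1 / (4 * x))) = (4 * x - 1) / (4 * x) := by
        field_simp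
        ring
      rw [h10, inv_div]
      field_simp
      ring
    rw [h8] at h6
    rw [abs_le]
    constructor <;> linarith

theorem sum_t1 {x : ℕ} (hx : 2 ≤ x) (h : x % 3 ≠ 0) :
    |sum_t x| ≤ 1 / ((x : ℝ) - 1) - 1 / (((F x : ℕ) : ℝ) - 1) := by
  have hx2 : (2 : ℝ) ≤ x := by exact_mod_cast hx
  obtain ⟨e, he, hF⟩ : ∃ e : ℝ, (e = 1 ∨ e = -1) ∧ ((F x : ℕ) : ℝ) = (4 * x + e) / 3 := by
    rcases sum_up hx h with h1 | h1
    · refine ⟨1, Or.inl rfl, ?_⟩
      have : (3 : ℝ) * (F x : ℕ) = 4 * x + 1 := by exact_mod_cast h1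
      linarith
    · refine ⟨-1, Or.inr rfl, ?_⟩
      have : (3 : ℝ) * (F x : ℕ) + 1 = 4 * x := by exact_mod_cast h1
      linarith
  have h3 : 4 / 3 * ((x : ℝ) - 1) ≤ ((F x : ℕ) : ℝ) - 1 := by
    rw [hF]
    rcases he with h | h <;> rw [h] <;> linarith
  have h4 : 1 / (((F x : ℕ) : ℝ) - 1) ≤ 3 / 4 * (1 / ((x : ℝ) - 1)) := by
    have h5 : 3 / 4 * (1 / ((x : ℝ) - 1)) = 1 / (4 / 3 * ((x : ℝ) - 1)) := by
      have : (x : ℝ) - 1 ≠ 0 := by
        have : (0 : ℝ) < x - 1 := by linarith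
        exact this.ne'
      field_simp
    rw [h5]
    exact one_div_le_one_div_of_le (by linarith) h3
  have h5 : sum_t x = Real.log (1 + e / (4 * x)) := by
    have hx0 : (x : ℝ) ≠ 0 := by
      have : (0 : ℝ) < x := by linarith
      exact this.ne'
    have hp : (0 : ℝ) < 1 + e / (4 * x) := by
      have h6 : 1 + e / (4 * (x : ℝ)) = (4 * x + e) / (4 * x) := by
        field_simp
      rw [h6]
      have h7 : (0 : ℝ) < 4 * x + e := by
        rcases he with h | h <;> rw [h] <;> linarith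
      positivity
    have h6 : ((F x : ℕ) : ℝ) = 2 * 2 * x * (1 + e / (4 * x)) / 3 := by
      rw [hF]
      field_simp
      ring
    unfold sum_t
    rw [if_neg h, h6, Real.log_div (by positivity) (by norm_num),
      Real.log_mul (by positivity) hp.ne', Real.log_mul (by norm_num) hx0,
      Real.log_mul (by norm_num) (by norm_num)]
    ring
  have h6 := sum_log hx2 he
  rw [← h5] at h6
  linarith

theorem SUM_thm : SUMStmt := by
  intro m k m0 hk hper hm0 h2
  have hm0' : (2 : ℝ) ≤ m0 := by exact_mod_cast hm0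
  refine ⟨((range k).filter fun j => ¬ F^[j] m % 3 = 0).card,
    (Finset.card_filter_le _ _).trans (by simp), ?_⟩
  have h3 : ∑ j ∈ range k, (Real.log (F^[j + 1] m) - Real.log (F^[j] m)) = 0 := by
    rw [Finset.sum_range_sub (fun j => Real.log (F^[j] m : ℕ)) k, hper]
    simp
  have h4 : ∑ j ∈ range k, (Real.log 2 - Real.log 3 +
      (if F^[j] m % 3 = 0 then 0 else Real.log 2)) =
      ((k + ((range k).filter fun j => ¬ F^[j] m % 3 = 0).card : ℕ) : ℝ) * Real.log 2 -
        (k : ℝ) * Real.log 3 := by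
    rw [Finset.sum_add_distrib, Finset.sum_const, card_range]
    have h5 : ∑ j ∈ range k, (if F^[j] m % 3 = 0 then (0 : ℝ) else Real.log 2) =
        (((range k).filter fun j => ¬ F^[j] m % 3 = 0).card : ℝ) * Real.log 2 := by
      have h6 : ∀ j ∈ range k, (if F^[j] m % 3 = 0 then (0 : ℝ) else Real.log 2) =
          if ¬ F^[j] m % 3 = 0 then Real.log 2 else 0 := by
        intro j _
        by_cases h : F^[j] m % 3 = 0 <;> simp [h]
      rw [Finset.sum_congr rfl h6, ← Finset.sum_filter, Finset.sum_const, nsmul_eq_mul]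
    rw [h5, nsmul_eq_mul]
    push_cast
    ring
  have h5 : ((k + ((range k).filter fun j => ¬ F^[j] m % 3 = 0).card : ℕ) : ℝ) * Real.log 2 -
        (k : ℝ) * Real.log 3 = - ∑ j ∈ range k, sum_t (F^[j] m) := by
    have h6 : ∀ j ∈ range k, sum_t (F^[j] m) =
        (Real.log (F^[j + 1] m) - Real.log (F^[j] m)) -
        (Real.log 2 - Real.log 3 + (if F^[j] m % 3 = 0 then 0 else Real.log 2)) := by
      intro j _
      rw [Function.iterate_succ_apply']
      rfl
    rw [Finset.sum_congr rfl h6, Finset.sum_sub_distrib, h3, h4]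
    ring
  rw [h5, abs_neg]
  let h : ℕ → ℝ := fun j => 1 / (((F^[j] m : ℕ) : ℝ) - 1)
  let w : ℕ → ℝ := fun j => if F^[j] m % 3 = 0 then h j else 0
  let c : ℕ → ℝ := fun j =>
    if F^[j] m % 3 = 0 ∧ F^[j + 1] m % 3 ≠ 0 then 1 / ((m0 : ℝ) - 1) else 0
  have hh : ∀ j, 0 ≤ h j ∧ h j ≤ 1 / ((m0 : ℝ) - 1) := by
    intro j
    have h6 : (m0 : ℝ) ≤ ((F^[j] m : ℕ) : ℝ) := by exact_mod_cast h2 j
    constructor
    · have : (0 : ℝ) < ((F^[j] m : ℕ) : ℝ) - 1 := by linarith
      exact (one_div_pos.2 this).le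
    · exact one_div_le_one_div_of_le (by linarith) (by linarith)
  have hw : ∀ j, 0 ≤ w j := by
    intro j
    show 0 ≤ (if F^[j] m % 3 = 0 then h j else 0)
    split_ifs
    · exact (hh j).1
    · exact le_rfl
  have hpt : ∀ j ∈ range k, |sum_t (F^[j] m)| ≤ c j - (h (j + 1) - h j) + (w (j + 1) - w j) := by
    intro j _
    have hj2 : 2 ≤ F^[j] m := hm0.trans (h2 j)
    by_cases hj : F^[j] m % 3 = 0
    · have h7 : w j = h j := if_pos hj
      rw [sum_t0 hj2 hj, abs_zero, h7]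
      by_cases hj1 : F^[j + 1] m % 3 = 0
      · have h8 : w (j + 1) = h (j + 1) := if_pos hj1
        have h9 : c j = 0 := if_neg (fun hc => hc.2 hj1)
        rw [h8, h9]
        linarith
      · have h8 : w (j + 1) = 0 := if_neg hj1
        have h9 : c j = 1 / ((m0 : ℝ) - 1) := if_pos ⟨hj, hj1⟩
        rw [h8, h9]
        have := (hh (j + 1)).2
        linarith
    · have h7 : w j = 0 := if_neg hj
      have h9 : c j = 0 := if_neg (fun hc => hj hc.1)
      have h10 := sum_t1 hj2 hj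
      have h11 : h (j + 1) = 1 / (((F (F^[j] m) : ℕ) : ℝ) - 1) := by
        show 1 / (((F^[j + 1] m : ℕ) : ℝ) - 1) = _
        rw [Function.iterate_succ_apply']
      have h12 := hw (j + 1)
      rw [h7, h9, h11]
      have h13 : h j = 1 / (((F^[j] m : ℕ) : ℝ) - 1) := rfl
      rw [h13]
      linarith
  have hsum : ∑ j ∈ range k, (c j - (h (j + 1) - h j) + (w (j + 1) - w j)) =
      ∑ j ∈ range k, c j := by
    rw [Finset.sum_add_distrib, Finset.sum_sub_distrib, Finset.sum_range_sub h k,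
      Finset.sum_range_sub w k]
    have h6 : h k = h 0 := by
      show 1 / (((F^[k] m : ℕ) : ℝ) - 1) = 1 / (((F^[0] m : ℕ) : ℝ) - 1)
      rw [hper]
      rfl
    have h7 : w k = w 0 := by
      show (if F^[k] m % 3 = 0 then h k else 0) = (if F^[0] m % 3 = 0 then h 0 else 0)
      rw [h6, hper]
      rfl
    rw [h6, h7]
    ring
  have hc : ∑ j ∈ range k, c j ≤ (lm F m k : ℝ) / ((m0 : ℝ) - 1) := by
    have h6 : ∑ j ∈ range k, c j =
        (((range k).filter fun j => F^[j] m % 3 = 0 ∧ F^[j + 1] m % 3 ≠ 0).card : ℝ) *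
          (1 / ((m0 : ℝ) - 1)) := by
      show ∑ j ∈ range k, (if F^[j] m % 3 = 0 ∧ F^[j + 1] m % 3 ≠ 0 then
        1 / ((m0 : ℝ) - 1) else 0) = _
      rw [← Finset.sum_filter, Finset.sum_const, nsmul_eq_mul]
    rw [h6, mul_one_div]
    refine div_le_div_of_nonneg_right ?_ (by linarith)
    have h7 : ((range k).filter fun j => F^[j] m % 3 = 0 ∧ F^[j + 1] m % 3 ≠ 0).card ≤
        lm F m k := by
      refine Finset.card_le_card ?_
      intro j hj
      rw [Finset.mem_filter] at hj ⊢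
      obtain ⟨hj1, hj2, hj3⟩ := hj
      refine ⟨hj1, ?_, ?_⟩
      · rw [Function.iterate_succ_apply']
        exact sum_lt (hm0.trans (h2 j)) hj2
      · rw [Function.iterate_succ_apply' F (j + 1) m]
        exact sum_gt (hm0.trans (h2 (j + 1))) hj3
    exact_mod_cast h7
  calc |∑ j ∈ range k, sum_t (F^[j] m)| ≤ ∑ j ∈ range k, |sum_t (F^[j] m)| :=
        Finset.abs_sum_le_sum_abs _ _
    _ ≤ ∑ j ∈ range k, (c j - (h (j + 1) - h j) + (w (j + 1) - w j)) :=
        Finset.sum_le_sum hpt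
    _ = ∑ j ∈ range k, c j := hsum
    _ ≤ _ := hc

end Pool.STN
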