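import Pool.Agent.H78.STN.Stmts3
import Pool.Agent.H21.STN.SUM

/-!
# Board STO, row SU2: as SUM, with the explicit number of ascending steps
-/

set_option autoImplicit false

open Finset

namespace Pool.STN

theorem SU2_thm : SU2Stmt := by
  intro m k m0 hk hper hm0 h2
  have hm0' : (2 : ℝ) ≤ m0 := by exact_mod_cast hm0
  refine ⟨((range k).filter fun j => ¬ F^[j] m % 3 = 0).card, ?_, ?_⟩
  · have h0 := Finset.card_filter_add_card_filter_not (s := range k) (fun j => F^[j] m % 3 = 0)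
    rw [card_range] at h0
    unfold dnc
    omega
  have h3 : ∑ j ∈ range k, (Real.log (F^[j + 1] m) - Real.log (F^[j] m)) = 0 := by
    rw [Finset.sum_range_sub (fun j => Real.log (F^[j] m : ℕ)) k, hper]
    simp
  have h4 : ∑ j ∈ range k, (Real.log 2 - Real.log 3 +
      (if F^[j] m % 3 = 0 then 0 else Real.log 2)) =
      ((k + ((range k).filter fun j => ¬ F^[j] m % 3 = 0).card : ℕ) : ℝ) * Real.log 2 -
        (k : ℝ) * Real.log 3 := by
    rw [Finset.sum_add_distrib, Finset.sum_const, card_range]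
    have h5 : ∑ j ∈ range k, (if F^[j] m % 3 = 0 then (0 : ℝ) else Real.log 2) =
        (((range k).filter fun j => ¬ F^[j] m % 3 = 0).card : ℝ) * Real.log 2 := by
      have h6 : ∀ j ∈ range k, (if F^[j] m % 3 = 0 then (0 : ℝ) else Real.log 2) =
          if ¬ F^[j] m % 3 = 0 then Real.log 2 else 0 := by
        intro j _
        by_cases h : F^[j] m % 3 = 0 <;> simp [h]
      rw [Finset.sum_congr rfl h6, ← Finset.sum_filter, Finset.sum_const, nsmul_eq_mul]
    rw [h5, nsmul_eq_mul]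
    push_cast
    ring
  have h5 : ((k + ((range k).filter fun j => ¬ F^[j] m % 3 = 0).card : ℕ) : ℝ) * Real.log 2 -
        (k : ℝ) * Real.log 3 = - ∑ j ∈ range k, sum_t (F^[j] m) := by
    have h6 : ∀ j ∈ range k, sum_t (F^[j] m) =
        (Real.log (F^[j + 1] m) - Real.log (F^[j] m)) -
        (Real.log 2 - Real.log 3 + (if F^[j] m % 3 = 0 then 0 else Real.log 2)) := by
      intro j _
      rw [Function.iterate_succ_apply']
      rfl
    rw [Finset.sum_congr rfl h6, Finset.sum_sub_distrib, h3, h4]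
    ring
  rw [h5, abs_neg]
  let h : ℕ → ℝ := fun j => 1 / (((F^[j] m : ℕ) : ℝ) - 1)
  let w : ℕ → ℝ := fun j => if F^[j] m % 3 = 0 then h j else 0
  let c : ℕ → ℝ := fun j =>
    if F^[j] m % 3 = 0 ∧ F^[j + 1] m % 3 ≠ 0 then 1 / ((m0 : ℝ) - 1) else 0
  have hh : ∀ j, 0 ≤ h j ∧ h j ≤ 1 / ((m0 : ℝ) - 1) := by
    intro j
    have h6 : (m0 : ℝ) ≤ ((F^[j] m : ℕ) : ℝ) := by exact_mod_cast h2 j
    constructor
    · have : (0 : ℝ) < ((F^[j] m : ℕ) : ℝ) - 1 := by linarith
      exact (one_div_pos.2 this).le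
    · exact one_div_le_one_div_of_le (by linarith) (by linarith)
  have hw : ∀ j, 0 ≤ w j := by
    intro j
    show 0 ≤ (if F^[j] m % 3 = 0 then h j else 0)
    split_ifs
    · exact (hh j).1
    · exact le_rfl
  have hpt : ∀ j ∈ range k, |sum_t (F^[j] m)| ≤ c j - (h (j + 1) - h j) + (w (j + 1) - w j) := by
    intro j _
    have hj2 : 2 ≤ F^[j] m := hm0.trans (h2 j)
    by_cases hj : F^[j] m % 3 = 0
    · have h7 : w j = h j := if_pos hj
      rw [sum_t0 hj2 hj, abs_zero, h7]
      by_cases hj1 : F^[j + 1] m % 3 = 0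
      · have h8 : w (j + 1) = h (j + 1) := if_pos hj1
        have h9 : c j = 0 := if_neg (fun hc => hc.2 hj1)
        rw [h8, h9]
        linarith
      · have h8 : w (j + 1) = 0 := if_neg hj1
        have h9 : c j = 1 / ((m0 : ℝ) - 1) := if_pos ⟨hj, hj1⟩
        rw [h8, h9]
        have := (hh (j + 1)).2
        linarith
    · have h7 : w j = 0 := if_neg hj
      have h9 : c j = 0 := if_neg (fun hc => hj hc.1)
      have h10 := sum_t1 hj2 hj
      have h11 : h (j + 1) = 1 / (((F (F^[j] m) : ℕ) : ℝ) - 1) := by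
        show 1 / (((F^[j + 1] m : ℕ) : ℝ) - 1) = _
        rw [Function.iterate_succ_apply']
      have h12 := hw (j + 1)
      rw [h7, h9, h11]
      have h13 : h j = 1 / (((F^[j] m : ℕ) : ℝ) - 1) := rfl
      rw [h13]
      linarith
  have hsum : ∑ j ∈ range k, (c j - (h (j + 1) - h j) + (w (j + 1) - w j)) =
      ∑ j ∈ range k, c j := by
    rw [Finset.sum_add_distrib, Finset.sum_sub_distrib, Finset.sum_range_sub h k,
      Finset.sum_range_sub w k]
    have h6 : h k = h 0 := by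
      show 1 / (((F^[k] m : ℕ) : ℝ) - 1) = 1 / (((F^[0] m : ℕ) : ℝ) - 1)
      rw [hper]
      rfl
    have h7 : w k = w 0 := by
      show (if F^[k] m % 3 = 0 then h k else 0) = (if F^[0] m % 3 = 0 then h 0 else 0)
      rw [h6, hper]
      rfl
    rw [h6, h7]
    ring
  have hc : ∑ j ∈ range k, c j ≤ (lm F m k : ℝ) / ((m0 : ℝ) - 1) := by
    have h6 : ∑ j ∈ range k, c j =
        (((range k).filter fun j => F^[j] m % 3 = 0 ∧ F^[j + 1] m % 3 ≠ 0).card : ℝ) *
          (1 / ((m0 : ℝ) - 1)) := by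
      show ∑ j ∈ range k, (if F^[j] m % 3 = 0 ∧ F^[j + 1] m % 3 ≠ 0 then
        1 / ((m0 : ℝ) - 1) else 0) = _
      rw [← Finset.sum_filter, Finset.sum_const, nsmul_eq_mul]
    rw [h6, mul_one_div]
    refine div_le_div_of_nonneg_right ?_ (by linarith)
    have h7 : ((range k).filter fun j => F^[j] m % 3 = 0 ∧ F^[j + 1] m % 3 ≠ 0).card ≤
        lm F m k := by
      refine Finset.card_le_card ?_
      intro j hj
      rw [Finset.mem_filter] at hj ⊢
      obtain ⟨hj1, hj2, hj3⟩ := hj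
      refine ⟨hj1, ?_, ?_⟩
      · rw [Function.iterate_succ_apply']
        exact sum_lt (hm0.trans (h2 j)) hj2
      · rw [Function.iterate_succ_apply' F (j + 1) m]
        exact sum_gt (hm0.trans (h2 (j + 1))) hj3
    exact_mod_cast h7
  calc |∑ j ∈ range k, sum_t (F^[j] m)| ≤ ∑ j ∈ range k, |sum_t (F^[j] m)| :=
        Finset.abs_sum_le_sum_abs _ _
    _ ≤ ∑ j ∈ range k, (c j - (h (j + 1) - h j) + (w (j + 1) - w j)) :=
        Finset.sum_le_sum hpt
    _ = ∑ j ∈ range k, c j := hsum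
    _ ≤ _ := hc

end Pool.STN
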